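import Pool.Agent.W295.NL.Stm

/-!
NL-DES (project NL, owner helper295): a homomorphism with central kernel descends to the quotient
by a central translation in its kernel.
-/

set_option autoImplicit false

namespace Pool.Agent.W138.NL.DES

open Pool.Agent.W295.NL

theorem inv_aux {Q Q₁ T : Type} (p : ℕ) [NeZero p] (e : Q ≃ Q₁ × ZMod p) (ζ : Q → Q)
    (hζ : ∀ x, e (ζ x) = ((e x).1, (e x).2 + 1)) (g : Q → T) (hg : ∀ x, g (ζ x) = g x) (x : Q) :
    g x = g (e.symm ((e x).1, 0)) := by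
  have h1 : ∀ (a : Q₁) (k : ℕ), g (e.symm (a, (k : ZMod p))) = g (e.symm (a, 0)) := by
    intro a k
    induction k with
    | zero => simp
    | succ k ih =>
      rw [← ih, ← hg (e.symm (a, (k : ZMod p)))]
      congr 1
      rw [Equiv.symm_apply_eq, hζ, Equiv.apply_symm_apply]
      simp
  have h2 := h1 (e x).1 (e x).2.val
  rw [ZMod.natCast_zmod_val] at h2
  rw [← h2]
  simp

theorem main : S_DES := by
  intro Q L Q' L' φ hL hφ Q₁ L₁ p f e ζ hp hζc hL₁ he hζ hφζ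
  obtain ⟨hhom, hsurj, hcen⟩ := hφ
  haveI : NeZero p := ⟨hp.ne_zero⟩
  refine ⟨fun a b => ?_, fun q => ?_, fun a a' haa => ?_⟩
  · show φ (e.symm (L₁ a b, 0)) = L' (φ (e.symm (a, 0))) (φ (e.symm (b, 0)))
    rw [← hhom, inv_aux p e ζ hζ φ hφζ (L (e.symm (a, 0)) (e.symm (b, 0))), he]
    simp [Pool.Agent.W295.NL.Ext]
  · obtain ⟨x, hx⟩ := hsurj q
    exact ⟨(e x).1, by
      show φ (e.symm ((e x).1, 0)) = q
      rw [← inv_aux p e ζ hζ φ hφζ x, hx]⟩
  · obtain ⟨z, hz, hzx⟩ := hcen _ _ haa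
    have hcomm : ∀ w, z (ζ w) = ζ (z w) := by
      intro w
      obtain ⟨t, ht⟩ := (hL.1 w).2 w
      have e1 : z (ζ (L w t)) = ζ (z (L w t)) := by
        rw [← (hζc w t).1, ← (hz (ζ w) t).2, (hζc w (z t)).1, (hz w t).2]
      rwa [ht] at e1
    have hg : ∀ u, (e (z u)).1 = (e (z (e.symm ((e u).1, 0)))).1 := by
      intro u
      refine inv_aux p e ζ hζ (fun u => (e (z u)).1) (fun x => ?_) u
      show (e (z (ζ x))).1 = (e (z x)).1
      rw [hcomm, hζ]
    refine ⟨fun b => (e (z (e.symm (b, 0)))).1, fun b c => ⟨?_, ?_⟩, ?_⟩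
    · show L₁ (e (z (e.symm (b, 0)))).1 c = (e (z (e.symm (L₁ b c, 0)))).1
      have h1 := hg (L (e.symm (b, 0)) (e.symm (c, 0)))
      rw [he] at h1
      rw [← (hz _ _).1, he] at h1
      simpa [Pool.Agent.W295.NL.Ext] using h1
    · show L₁ b (e (z (e.symm (c, 0)))).1 = (e (z (e.symm (L₁ b c, 0)))).1
      have h1 := hg (L (e.symm (b, 0)) (e.symm (c, 0)))
      rw [he] at h1
      rw [← (hz _ _).2, he] at h1
      simpa [Pool.Agent.W295.NL.Ext] using h1
    · show (e (z (e.symm (a, 0)))).1 = a'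
      rw [hzx]
      simp

end Pool.Agent.W138.NL.DES
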